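import Pool.Agent.MP_0df29f_nt.Sparse

set_option autoImplicit false

namespace Pool.Agent.Results.MP_0df29f_nt.Sparse

/-- For infinitely many `n`, `a(n) * (log log n) ^ (1 / 3) ≤ 28 n`. -/
theorem result (N : ℕ) : ∃ n ≥ N,
    ({p : ℕ | p.Prime ∧ ∃ k < n, ∃ e₁ e₂ : ℤ, (e₁ = 1 ∨ e₁ = -1) ∧ (e₂ = 1 ∨ e₂ = -1) ∧
      (p : ℤ) = 2 ^ n + e₁ * 2 ^ k + e₂}.ncard : ℝ) * Real.log (Real.log n) ^ (1 / 3 : ℝ) ≤
      28 * n :=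
  Pool.Agent.MP_0df29f_nt.main N

end Pool.Agent.Results.MP_0df29f_nt.Sparse
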