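import Pool.Agent.MP_0df29f_nt.Zero.All

set_option autoImplicit false

namespace Pool.Agent.Results.MP_0df29f_nt.ZeroAt16331

/-- `a(16331) = 0`: no number `2^16331 ± 2^k ± 1` with `k < 16331` is prime. -/
theorem result :
    {p : ℕ | p.Prime ∧ ∃ k < 16331, ∃ e₁ e₂ : ℤ, (e₁ = 1 ∨ e₁ = -1) ∧ (e₂ = 1 ∨ e₂ = -1) ∧
      (p : ℤ) = 2 ^ 16331 + e₁ * 2 ^ k + e₂} = ∅ :=
  Set.eq_empty_of_forall_notMem fun p ⟨hp, k, hk, e₁, e₂, h1, h2, he⟩ =>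
    Pool.Agent.MP_0df29f_nt.Zero.cov_sound 16331 (by decide) Pool.Agent.MP_0df29f_nt.Zero.cov_all
      p hp k hk e₁ e₂ h1 h2 he

end Pool.Agent.Results.MP_0df29f_nt.ZeroAt16331
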